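import Pool.Agent.Helper84.Kauf.Final
import Pool.Agent.Helper23.KB.Fin
import Pool.Agent.Helper4.KSq.Main
import Pool.Agent.Helper4.WC.FIN

set_option autoImplicit false

/-!
# No `ℵ₂`-Kaufmann models: the tree property and the consistency strength

The problem has two inseparable parts; both are answered here.

Q1 asks whether ZFC proves: if there are no `ℵ₂`-Kaufmann models, then `ℵ₂` has the tree
property.  It does not (relative to the Proper Forcing Axiom): if PFA holds, then there is a
countable transitive model of ZFC in which there is an `ℵ₂`-Aronszajn tree, but no `ℵ₂`-Kaufmann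
model.

Q2 asks for the consistency strength of: there are no `ℵ₂`-Kaufmann models.  It is at most a weakly
compact cardinal (see the problem file), and it is at least that: for every regular uncountable
cardinal `κ`, if there is no `κ`-Kaufmann model, then there is an inner model of ZFC in which
`κ → (κ)²₂` holds, that is, in which `κ` is weakly compact.

The definitions about the countable transitive model are in `Pool/Agent/Helper23/KB/Defs.lean` and
`Pool/Agent/Helper23/CK/Defs.lean`, the formulas of arithmetic and `PFA` in
`Pool/Agent/Helper84/Kauf/Defs.lean`; the notions of the second part are defined in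
`Pool/Agent/Helper4/KSq/KDefs.lean` and `Pool/Agent/Helper4/WC/WDefs.lean`.
-/

open Cardinal

namespace Pool.Agent.Results.MP_e48996_lc.NoKaufmannModels

open Pool.Agent.Helper84.Kauf in
/-- there is a condition (of height `0`) -/
theorem exists_cond : Nonempty Cond := by
  have hmin : ∀ ξ : K2, ¬ ξ < wellFounded_lt.min Set.univ Set.univ_nonempty := fun ξ =>
    wellFounded_lt.not_lt_min Set.univ (Set.mem_univ ξ)
  refine ⟨⟨wellFounded_lt.min Set.univ Set.univ_nonempty, {∅}, Set.singleton_nonempty _, ?_, ?_,
    ?_, ?_⟩⟩
  · rw [Cardinal.mk_singleton]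
    exact Cardinal.one_le_aleph0.trans (Cardinal.aleph0_le_aleph 1)
  · rintro X rfl
    exact Set.empty_subset _
  · rintro X rfl Y rfl ξ
    simp
  · intro X _ ξ hξ
    exact (hmin ξ hξ).elim

/-- (1) If PFA holds, then there is a countable transitive model of ZFC in which there is an
`ℵ₂`-Aronszajn tree, but no `ℵ₂`-Kaufmann model.  (2) For every regular uncountable cardinal `κ`,
if there is no `κ`-Kaufmann model, then there is an inner model of ZFC in which `κ → (κ)²₂`. -/
theorem result :
    (Pool.Agent.Helper84.Kauf.PFA → ∃ M : ZFSet.{0}, Pool.Agent.Helper23.KB.IsCounterexample M) ∧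
    ∀ κ : Cardinal.{0}, κ.IsRegular → ℵ₀ < κ →
      (¬ ∃ (A : Type) (M : Pool.Agent.Helper4.KSq.ArStr A), Pool.Agent.Helper4.KSq.IsKaufmann κ M) →
      ∃ N : ZFSet.{0} → Prop, Pool.Agent.Helper4.WC.IsInnerModel N ∧
        Pool.Agent.Helper4.WC.PartitionIn N κ.ord := by
  refine ⟨fun hP => ?_, fun κ hκ hu h => ?_⟩
  · obtain ⟨h1, h2, h3⟩ := Pool.Agent.Helper84.Kauf.final hP
    have := exists_cond
    exact Pool.Agent.Helper23.KB.ctm_of_ro Pool.Agent.Helper84.Kauf.Cond h1 h2 h3
  · exact Pool.Agent.Helper4.WC.inner_of_not_square hκ hu fun hsq =>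
      h (Pool.Agent.Helper4.KSq.kaufmann_of_square hκ hu hsq)

end Pool.Agent.Results.MP_e48996_lc.NoKaufmannModels
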