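import Pool.Agent.Helper4.KSq.Main

set_option autoImplicit false

/-!
# `□(κ)` gives `κ`-Kaufmann models

For every regular uncountable cardinal `κ`, the principle `□(κ)` implies that there is a
`κ`-Kaufmann model, i.e. a `κ`-like, recursively saturated, rather classless model of Peano
arithmetic. All notions are defined in `Pool/Agent/Helper4/KSq/KDefs.lean`.
-/

open Cardinal

namespace Pool.Agent.Results.MP_e48996_lc.SquareKaufmann

open Pool.Agent.Helper4.KSq in
theorem result {κ : Cardinal.{0}} (hκ : κ.IsRegular) (hu : ℵ₀ < κ) (hsq : Square κ) :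
    ∃ (A : Type) (M : ArStr A), IsKaufmann κ M :=
  kaufmann_of_square hκ hu hsq

end Pool.Agent.Results.MP_e48996_lc.SquareKaufmann
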